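import Pool.Agent.MDG.Stmts
import Pool.Agent.Helper84_HEC.CONN

/-!
Squad MDG (MP_3faef8_co), row GDM (helper75): good label functions for graphs of large minimum degree.
-/

set_option autoImplicit false

open Finset Pool.Agent.HEC

namespace Pool.Agent.MDG.H75

/-- row GDM -/
theorem gdm (h1 : Ns5Stmt) (h2 : MaiStmt) (h3 : P17Stmt) (h4 : Re5Stmt) : GdmStmt := by
  intro V _ G hG
  obtain ⟨N⟩ := h1 V G
  obtain ⟨c, b, x0, hc, hb, hb0, hx0, hx0', hx0b, hx0s⟩ := h2 V G N hG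
  obtain ⟨f, hf, hfp⟩ := h3 V N.S (fun v => 2 * (dg G v : ℤ) + b v)
  obtain ⟨x, hx1, hx2, hx3⟩ := h4 V G N b x0 f hx0 hx0' hx0b hx0s hf
  refine ⟨x, hx1, ?_, ?_, hx3⟩
  · intro u v huv
    rw [hx2 u, hx2 v]
    by_cases hS : N.S.Adj u v
    · intro h
      apply hfp u v hS
      linarith
    · intro h
      apply hc u v huv hS
      obtain ⟨j, hj⟩ := Pool.Agent.HEC.H84.bd_parity N.S f hf u
      obtain ⟨j', hj'⟩ := Pool.Agent.HEC.H84.bd_parity N.S f hf v
      obtain ⟨k, hk⟩ := hb u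
      obtain ⟨k', hk'⟩ := hb v
      refine ⟨(k' + j') - (k + j), ?_⟩
      rw [hj, hj'] at h
      linarith
  · simp only [hx2]
    rw [Finset.sum_add_distrib, ← Finset.mul_sum, Pool.Agent.HEC.H84.sum_bd_anti f hf.anti, hb0]
    ring

end Pool.Agent.MDG.H75
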